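import Pool.Agent.Q201.AR.Stm2

/-!
# Project AR, part 2: decoding of the Marker extension (job MDEC)
-/

set_option autoImplicit false

open FirstOrder FirstOrder.Language

namespace Pool.Agent.Q53.AR

open Q201.AR

theorem t_MDEC : S_MDEC := by
  let R1 : (Sig ar3).Relations 1 := ⟨0, rfl⟩
  let R3 : (Sig ar3).Relations 3 := ⟨2, rfl⟩
  let t1 : Fin 1 → (Sig ar3).Term (Fin 1) := ![Term.var 0]
  let t3 : Fin 3 → (Sig ar3).Term (Fin 2 ⊕ Fin 1) :=
    ![Term.var (Sum.inr 0), Term.var (Sum.inl 0), Term.var (Sum.inl 1)]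
  let ρ : (Sig ar3).BoundedFormula (Fin 2) 0 :=
    BoundedFormula.all (BoundedFormula.not (R3.boundedFormula t3))
  refine ⟨R1.formula t1, ρ, ?_⟩
  intro M _ R ι κ ν h
  constructor
  · intro v
    rw [Formula.realize_rel]
    have h1 : (fun i => (t1 i).realize v) = ![v 0] := by
      ext i
      fin_cases i
      rfl
    rw [h1]
    exact h.h1 (v 0)
  · intro u
    have h0 : ρ.Realize (ι ∘ u) (default : Fin 0 → M) ↔
        ∀ x : M, ¬ Structure.RelMap R3 ![x, ι (u 0), ι (u 1)] := by
      change (BoundedFormula.all (BoundedFormula.not (R3.boundedFormula t3))).Realize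
        (ι ∘ u) (default : Fin 0 → M) ↔ _
      rw [BoundedFormula.realize_all]
      refine forall_congr' fun x => ?_
      rw [BoundedFormula.realize_not, BoundedFormula.realize_rel]
      have h1 : (fun i => (t3 i).realize (Sum.elim (ι ∘ u) (Fin.snoc (default : Fin 0 → M) x))) =
          ![x, ι (u 0), ι (u 1)] := by
        ext i
        fin_cases i
        · simp [t3, Fin.snoc]
        · rfl
        · rfl
      rw [h1]
    refine Iff.trans h0 ?_
    have h3 : ∀ x : M, Structure.RelMap R3 ![x, ι (u 0), ι (u 1)] ↔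
        N3 R ι ν x (ι (u 0)) (ι (u 1)) := fun x => h.h3 x _ _
    constructor
    · intro h4
      by_contra h5
      exact h4 (ν (u 0) (u 1)) ((h3 _).mpr ⟨u 0, u 1, h5, rfl, rfl, rfl⟩)
    · intro h4 x h5
      obtain ⟨a, b, hab, -, ha, hb⟩ := (h3 x).mp h5
      rw [← h.good.iinj ha, ← h.good.iinj hb] at hab
      exact hab h4

end Pool.Agent.Q53.AR
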