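import Pool.Agent.Q201.AR.Stm2

/-!
# Project AR, part 2: the Marker extension of a relation decidable in a jump (job MLB)
-/

set_option autoImplicit false

namespace Pool.Agent.Q53.AR

open Pool.Agent.Helper578.JD Pool.Agent.Helper578.JD.Oracle Q201.AR Encodable

section closure

variable {α β : Type} [Primcodable α] [Primcodable β] {A : Set ℕ}

theorem dec_of_eq {P Q : α → Prop} (h : Dec A P) (hPQ : ∀ a, P a ↔ Q a) : Dec A Q :=
  ⟨h.1.of_eq hPQ, h.2.of_eq fun a => not_congr (hPQ a)⟩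

theorem dec_comp {P : β → Prop} (h : Dec A P) {f : α → β} (hf : Computable f) :
    Dec A fun a => P (f a) := ⟨h.1.comp hf, h.2.comp hf⟩

theorem dec_and {P Q : α → Prop} (hP : Dec A P) (hQ : Dec A Q) : Dec A fun a => P a ∧ Q a :=
  ⟨hP.1.and hQ.1, (hP.2.or hQ.2).of_eq fun _ => not_and_or.symm⟩

theorem dec_not {P : α → Prop} (hP : Dec A P) : Dec A fun a => ¬ P a :=
  ⟨hP.2, hP.1.of_eq fun _ => not_not.symm⟩

theorem dec_cp {P : α → Prop} (hP : ComputablePred P) : Dec A P :=
  ⟨REIn.of_re hP.to_re, REIn.of_re hP.not.to_re⟩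

theorem dec_all_lt {S : α → ℕ → Prop} (hS : Dec A fun x : α × ℕ => S x.1 x.2) {f : α → ℕ}
    (hf : Computable f) : Dec A fun a => ∀ i < f a, S a i := by
  refine ⟨REIn.all_lt hS.1 hf, ?_⟩
  have h1 : REIn A fun a => ∃ i, i < f a ∧ ¬ S a i :=
    REIn.ex (S := fun a i => i < f a ∧ ¬ S a i)
      (REIn.and (REIn.of_re (RE.lt (by fun_prop) (by fun_prop))) hS.2)
  refine h1.of_eq fun a => ?_
  push Not
  rfl

theorem dec_ex_lt {S : α → ℕ → Prop} (hS : Dec A fun x : α × ℕ => S x.1 x.2) {f : α → ℕ}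
    (hf : Computable f) : Dec A fun a => ∃ i, i < f a ∧ S a i := by
  refine dec_of_eq (dec_not (dec_all_lt (S := fun a i => ¬ S a i) (dec_not hS) hf)) fun a => ?_
  push Not
  rfl

theorem dec_ok : Dec A fun c : Info => Ok A c := by
  constructor
  · refine REIn.and ?_ ?_
    · exact REIn.all_mem (S := fun (_ : Info) x => x ∈ A) (l := fun c => c.1)
        (REIn.mem Computable.snd) (by fun_prop)
    · exact REIn.all_mem (S := fun (_ : Info) x => x ∉ A) (l := fun c => c.2)
        (REIn.not_mem Computable.snd) (by fun_prop)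
  · have h1 : REIn A fun c : Info => (∃ x, x ∈ c.1 ∧ x ∉ A) ∨ ∃ x, x ∈ c.2 ∧ x ∈ A := by
      refine REIn.or ?_ ?_
      · exact REIn.ex (S := fun (c : Info) x => x ∈ c.1 ∧ x ∉ A)
          (REIn.and (REIn.of_re (RE.mem_list (f := fun x : Info × ℕ => x.2)
            (l := fun x : Info × ℕ => x.1.1) (by fun_prop) (by fun_prop)))
            (REIn.not_mem Computable.snd))
      · exact REIn.ex (S := fun (c : Info) x => x ∈ c.2 ∧ x ∈ A)
          (REIn.and (REIn.of_re (RE.mem_list (f := fun x : Info × ℕ => x.2)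
            (l := fun x : Info × ℕ => x.1.2) (by fun_prop) (by fun_prop)))
            (REIn.mem Computable.snd))
    refine h1.of_eq fun c => ?_
    unfold Ok
    rw [not_and_or]
    push Not
    rfl

/-- The coded information. -/
def cc (t : ℕ) : Info := (decode (α := List ℕ × List ℕ) t.unpair.1).getD ([], [])

theorem cc_comp : Computable cc := Primrec.option_getD.to_comp.comp (by fun_prop) (by fun_prop)

/-- Normal form of a relation enumerable in an oracle. -/
theorem normal0 {S : α → Prop} (hS : REIn A S) : ∃ q : α → ℕ → Bool, Computable₂ q ∧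
    ∀ a, S a ↔ ∃ t, q a t = true ∧ Ok A (cc t) := by
  obtain ⟨R, hR, h⟩ := hS
  obtain ⟨q, hq, hRq⟩ := RE.re_iff.1 hR
  refine ⟨fun a t => q (a, cc t) t.unpair.2, ?_, ?_⟩
  · have h1 : Computable fun x : α × ℕ => cc x.2 := cc_comp.comp Computable.snd
    exact hq.comp (g := fun x : α × ℕ => (x.1, cc x.2)) (h := fun x : α × ℕ => x.2.unpair.2)
      (by fun_prop) (by fun_prop)
  · intro a
    rw [h a]
    constructor
    · rintro ⟨c, hc, hok⟩
      obtain ⟨n, hn⟩ := (hRq (a, c)).1 hc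
      have h1 : cc (Nat.pair (encode c) n) = c := by
        unfold cc
        rw [Nat.unpair_pair, encodek, Option.getD_some]
      refine ⟨Nat.pair (encode c) n, ?_, ?_⟩
      · simp only [h1, Nat.unpair_pair]
        exact hn
      · rw [h1]; exact hok
    · rintro ⟨t, ht, hok⟩
      exact ⟨cc t, (hRq (a, cc t)).2 ⟨_, ht⟩, hok⟩

/-- Normal form of a relation enumerable in an oracle. -/
theorem normal {S : α → Prop} (hS : REIn A S) : ∃ D : α → ℕ → Prop,
    (Dec A fun x : α × ℕ => D x.1 x.2) ∧ ∀ a, S a ↔ ∃ t, D a t := by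
  obtain ⟨q, hq, h⟩ := normal0 hS
  refine ⟨fun a t => q a t = true ∧ Ok A (cc t), dec_and ?_ ?_, h⟩
  · exact dec_cp (RE.cp_eq (hq.comp Computable.fst Computable.snd) (by fun_prop))
  · exact dec_comp dec_ok (cc_comp.comp Computable.snd)

theorem bound_list {D : ℕ → ℕ → Prop} (l : List ℕ) (h : ∀ x ∈ l, ∃ s, D x s) :
    ∃ m, ∀ x ∈ l, ∃ s, s < m ∧ D x s := by
  induction l with
  | nil => exact ⟨0, fun x hx => absurd hx (List.not_mem_nil)⟩
  | cons b l ih =>
    obtain ⟨m, hm⟩ := ih fun x hx => h x (List.mem_cons_of_mem _ hx)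
    obtain ⟨s, hs⟩ := h b List.mem_cons_self
    refine ⟨max m (s + 1), fun x hx => ?_⟩
    rcases List.mem_cons.1 hx with rfl | hx
    · exact ⟨s, by omega, hs⟩
    · obtain ⟨s', hs', h2⟩ := hm x hx
      exact ⟨s', by omega, h2⟩

/-- Normal form of a relation enumerable in the jump. -/
theorem normal2 {S : α → Prop} (hS : REIn (jump A) S) : ∃ E : α → ℕ → ℕ → Prop,
    (Dec A fun x : (α × ℕ) × ℕ => E x.1.1 x.1.2 x.2) ∧ ∀ a, S a ↔ ∃ y, ∀ z, E a y z := by
  obtain ⟨q, hq, h⟩ := normal0 hS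
  obtain ⟨D, hD, h1⟩ := normal (mem_jump_re (A := A))
  let V : α → ℕ → Prop := fun a y => q a y.unpair.1 = true ∧
    (∀ x ∈ (cc y.unpair.1).1, ∃ s, s < y.unpair.2 ∧ D x s) ∧
    ∀ x ∈ (cc y.unpair.1).2, x ∉ jump A
  have hcc : Computable fun x : (α × ℕ) × ℕ => cc x.1.2.unpair.1 :=
    cc_comp.comp (g := fun x : (α × ℕ) × ℕ => x.1.2.unpair.1) (by fun_prop)
  have hV : REIn A fun x : α × ℕ => ¬ V x.1 x.2 := by
    have h2 : REIn A fun x : α × ℕ => ¬ (q x.1 x.2.unpair.1 = true) ∨
        (∃ b, b ∈ (cc x.2.unpair.1).1 ∧ ¬ ∃ s, s < x.2.unpair.2 ∧ D b s) ∨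
        ∃ b, b ∈ (cc x.2.unpair.1).2 ∧ b ∈ jump A := by
      refine REIn.or ?_ (REIn.or ?_ ?_)
      · exact (dec_cp (A := A) (RE.cp_eq (hq.comp (g := fun x : α × ℕ => x.1)
          (h := fun x : α × ℕ => x.2.unpair.1) (by fun_prop) (by fun_prop)) (by fun_prop))).2
      · refine REIn.ex (S := fun (x : α × ℕ) b => b ∈ (cc x.2.unpair.1).1 ∧
          ¬ ∃ s, s < x.2.unpair.2 ∧ D b s) (REIn.and (REIn.of_re (RE.mem_list
            (f := fun x : (α × ℕ) × ℕ => x.2) (l := fun x : (α × ℕ) × ℕ => (cc x.1.2.unpair.1).1)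
            (by fun_prop) (by fun_prop))) ?_)
        refine (dec_ex_lt (S := fun (x : (α × ℕ) × ℕ) s => D x.2 s)
          (f := fun x : (α × ℕ) × ℕ => x.1.2.unpair.2) ?_ (by fun_prop)).2
        exact dec_comp hD (f := fun x : ((α × ℕ) × ℕ) × ℕ => (x.1.2, x.2)) (by fun_prop)
      · refine REIn.ex (S := fun (x : α × ℕ) b => b ∈ (cc x.2.unpair.1).2 ∧ b ∈ jump A)
          (REIn.and (REIn.of_re (RE.mem_list (f := fun x : (α × ℕ) × ℕ => x.2)
            (l := fun x : (α × ℕ) × ℕ => (cc x.1.2.unpair.1).2) (by fun_prop) (by fun_prop))) ?_)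
        exact mem_jump_re.comp (f := fun x : (α × ℕ) × ℕ => x.2) (by fun_prop)
    refine h2.of_eq fun x => ?_
    simp only [V, not_and_or]
    refine or_congr Iff.rfl (or_congr ?_ ?_)
    · constructor
      · rintro ⟨b, hb, h3⟩ h4
        exact h3 (h4 b hb)
      · intro h3
        by_contra h4
        apply h3
        intro b hb
        by_contra h5
        exact h4 ⟨b, hb, h5⟩
    · constructor
      · rintro ⟨b, hb, h3⟩ h4
        exact h4 b hb h3
      · intro h3
        by_contra h4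
        apply h3
        intro b hb h5
        exact h4 ⟨b, hb, h5⟩
  obtain ⟨D', hD', h2⟩ := normal hV
  refine ⟨fun a y z => ¬ D' (a, y) z, dec_not hD', fun a => ?_⟩
  have h3 : ∀ y, V a y ↔ ∀ z, ¬ D' (a, y) z := by
    intro y
    have h4 := h2 (a, y)
    constructor
    · intro h5 z h6
      exact h4.2 ⟨z, h6⟩ h5
    · intro h5
      by_contra h6
      obtain ⟨z, hz⟩ := h4.1 h6
      exact h5 z hz
  rw [h a]
  constructor
  · rintro ⟨t, ht, hok⟩
    obtain ⟨m, hm⟩ := bound_list (D := D) (cc t).1 fun x hx => (h1 x).1 (hok.1 x hx)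
    refine ⟨Nat.pair t m, (h3 _).1 ⟨?_, ?_, ?_⟩⟩
    · rw [Nat.unpair_pair]; exact ht
    · rw [Nat.unpair_pair]; exact hm
    · rw [Nat.unpair_pair]; exact hok.2
  · rintro ⟨y, hy⟩
    obtain ⟨h5, h6, h7⟩ := (h3 y).2 hy
    refine ⟨y.unpair.1, h5, fun x hx => ?_, h7⟩
    obtain ⟨s, -, hs⟩ := h6 x hx
    exact (h1 x).2 ⟨s, hs⟩

/-- Unique witnesses. -/
theorem unique_wit {S : α → Prop} (hS : REIn (jump A) S) : ∃ V : α → ℕ → Prop,
    (REIn A fun x : α × ℕ => ¬ V x.1 x.2) ∧ (∀ a, S a ↔ ∃ w, V a w) ∧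
    ∀ a w w', V a w → V a w' → w = w' := by
  obtain ⟨E, hE, h⟩ := normal2 hS
  let B : α → ℕ → ℕ → Prop := fun a y u => ∀ y' < y, ∃ z, z < u + 1 ∧ ¬ E a y' z
  let C : α → ℕ → ℕ → Prop := fun a y u => ∀ u' < u, ¬ B a y u'
  let V : α → ℕ → Prop := fun a w => (∀ z, E a w.unpair.1 z) ∧ B a w.unpair.1 w.unpair.2 ∧
    C a w.unpair.1 w.unpair.2
  have hB : Dec A fun x : (α × ℕ) × ℕ => B x.1.1 x.1.2 x.2 := by
    refine dec_all_lt (S := fun (x : (α × ℕ) × ℕ) y' => ∃ z, z < x.2 + 1 ∧ ¬ E x.1.1 y' z)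
      (f := fun x => x.1.2) ?_ (by fun_prop)
    refine dec_ex_lt (S := fun (x : ((α × ℕ) × ℕ) × ℕ) z => ¬ E x.1.1.1 x.2 z)
      (f := fun x => x.1.2 + 1) ?_ (by fun_prop)
    exact dec_not (dec_comp hE (f := fun x : (((α × ℕ) × ℕ) × ℕ) × ℕ => ((x.1.1.1.1, x.1.2), x.2))
      (by fun_prop))
  have hC : Dec A fun x : (α × ℕ) × ℕ => C x.1.1 x.1.2 x.2 := by
    refine dec_all_lt (S := fun (x : (α × ℕ) × ℕ) u' => ¬ B x.1.1 x.1.2 u')
      (f := fun x => x.2) ?_ (by fun_prop)
    exact dec_not (dec_comp hB (f := fun x : ((α × ℕ) × ℕ) × ℕ => ((x.1.1.1, x.1.1.2), x.2))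
      (by fun_prop))
  refine ⟨V, ?_, ?_, ?_⟩
  · have h1 : REIn A fun x : α × ℕ => (∃ z, ¬ E x.1 x.2.unpair.1 z) ∨
        ¬ B x.1 x.2.unpair.1 x.2.unpair.2 ∨ ¬ C x.1 x.2.unpair.1 x.2.unpair.2 := by
      refine REIn.or ?_ (REIn.or ?_ ?_)
      · refine REIn.ex (S := fun (x : α × ℕ) z => ¬ E x.1 x.2.unpair.1 z) ?_
        exact hE.2.comp (f := fun x : (α × ℕ) × ℕ => ((x.1.1, x.1.2.unpair.1), x.2)) (by fun_prop)
      · exact hB.2.comp (f := fun x : α × ℕ => ((x.1, x.2.unpair.1), x.2.unpair.2)) (by fun_prop)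
      · exact hC.2.comp (f := fun x : α × ℕ => ((x.1, x.2.unpair.1), x.2.unpair.2)) (by fun_prop)
    refine h1.of_eq fun x => ?_
    simp only [V, not_and_or, not_forall]
  · intro a
    rw [h a]
    constructor
    · intro hex
      classical
      let y := Nat.find hex
      have hy : ∀ z, E a y z := Nat.find_spec hex
      have hy' : ∀ y' < y, ∃ z, ¬ E a y' z := by
        intro y' hlt
        by_contra hcon
        push Not at hcon
        exact Nat.find_min hex hlt hcon
      have hu : ∃ u, B a y u := by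
        have h4 : ∀ i, ∃ z, i < y → ¬ E a i z := by
          intro i
          by_cases hi : i < y
          · obtain ⟨z, hz⟩ := hy' i hi
            exact ⟨z, fun _ => hz⟩
          · exact ⟨0, fun h => absurd h hi⟩
        choose k hk using h4
        refine ⟨(Finset.range y).sup k, fun i hi => ⟨k i, ?_, hk i hi⟩⟩
        exact Nat.lt_succ_of_le (Finset.le_sup (f := k) (Finset.mem_range.2 hi))
      refine ⟨Nat.pair y (Nat.find hu), ?_⟩
      simp only [V, Nat.unpair_pair]
      exact ⟨hy, Nat.find_spec hu, fun u' hu' => Nat.find_min hu hu'⟩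
    · rintro ⟨w, hw, -⟩
      exact ⟨_, hw⟩
  · have key : ∀ a w w', V a w → V a w' → ¬ w.unpair.1 < w'.unpair.1 := by
      intro a w w' h1 h2 hlt
      obtain ⟨z, -, hz⟩ := h2.2.1 _ hlt
      exact hz (h1.1 z)
    intro a w w' h1 h2
    have h3 : w.unpair.1 = w'.unpair.1 := by
      have := key a w w' h1 h2
      have := key a w' w h2 h1
      omega
    have h4 : w.unpair.2 = w'.unpair.2 := by
      obtain ⟨-, hb, hc⟩ := h1
      obtain ⟨-, hb', hc'⟩ := h2
      rw [h3] at hb hc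
      by_contra hne
      rcases lt_or_gt_of_ne hne with hlt | hlt
      · exact hc' _ hlt hb
      · exact hc _ hlt hb'
    rw [← Nat.pair_unpair w, ← Nat.pair_unpair w', h3, h4]

end closure

section main

open RE

theorem capp (n : ℕ) (i : Fin n) : Computable fun v : Fin n → ℕ => v i :=
  (Primrec.fin_app.comp Primrec.id (Primrec.const i)).to_comp

theorem cvec2 : Computable fun q : ℕ × ℕ => (![q.1, q.2] : Fin 2 → ℕ) := by
  have h1 : Primrec₂ fun (q : ℕ × ℕ) (i : Fin 2) => (![q.1, q.2] : Fin 2 → ℕ) i := by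
    refine Primrec₂.swap (Primrec.fin_curry₁.2 fun i => ?_)
    fin_cases i
    · exact Primrec.fst
    · exact Primrec.snd
  exact (Primrec.fin_curry.2 h1).to_comp

theorem cmod {α : Type} [Primcodable α] {f : α → ℕ} (hf : Computable f) (m : ℕ) :
    Computable fun a => f a % m := Primrec.nat_mod.to_comp.comp hf (Computable.const m)

theorem cdiv {α : Type} [Primcodable α] {f : α → ℕ} (hf : Computable f) (m : ℕ) :
    Computable fun a => f a / m := Primrec.nat_div.to_comp.comp hf (Computable.const m)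

theorem t_MLB : S_MLB := by
  intro hen A R hR
  have hS : REIn (jump A) fun q : ℕ × ℕ => ¬ R q.1 q.2 := hR.2.comp cvec2
  obtain ⟨V, hV, hex, huniq⟩ := unique_wit hS
  let Inv : ℕ → Prop := fun n => n % 2 = 1 ∨ ¬ V (n / 2).unpair.1.unpair (n / 2).unpair.2
  have hInv : REIn A Inv := by
    refine REIn.or (REIn.of_re (RE.eq (cmod Computable.id 2) (by fun_prop))) ?_
    have h1 : Computable fun n : ℕ => n / 2 := cdiv Computable.id 2
    exact hV.comp (f := fun n : ℕ => ((n / 2).unpair.1.unpair, (n / 2).unpair.2)) (by fun_prop)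
  have hinf : {x | Inv x}.Infinite :=
    Set.infinite_of_injective_forall_mem (f := fun n : ℕ => 2 * n + 1)
      (fun a b h => by simpa using h) (fun n => Or.inl (by omega))
  obtain ⟨f, finj, fran, fdec⟩ := hen A Inv hInv hinf
  classical
  let wit : ℕ → ℕ → ℕ := fun a b => if h : ∃ w, V (a, b) w then h.choose else 0
  have hwit : ∀ a b, ¬ R a b → V (a, b) (wit a b) := by
    intro a b hab
    have h : ∃ w, V (a, b) w := (hex (a, b)).1 hab
    simp only [wit, dif_pos h]
    exact h.choose_spec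
  have hval : ∀ a b w, V (a, b) w → ¬ R a b ∧ w = wit a b := by
    intro a b w h
    have h1 : ¬ R a b := (hex (a, b)).2 ⟨w, h⟩
    exact ⟨h1, huniq (a, b) w _ h (hwit a b h1)⟩
  let N : ℕ → ℕ → ℕ := fun a b => 2 * Nat.pair (Nat.pair a b) (wit a b)
  have hN : ∀ a b, ¬ R a b → ¬ Inv (N a b) := by
    intro a b hab h
    simp only [Inv, N] at h
    rw [Nat.mul_div_cancel_left _ (by norm_num : 0 < 2)] at h
    simp only [Nat.unpair_pair] at h
    rcases h with h | h
    · omega
    · exact h (hwit a b hab)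
  refine ⟨fun a => 2 * a, fun a => 2 * f a + 1, fun a b => 2 * N a b + 1, ?_, ?_, ?_, ?_⟩
  · refine ⟨?_, ?_, ?_, ?_, ?_, ?_, ?_⟩
    · intro a b h
      have h1 : 2 * a = 2 * b := h
      omega
    · intro a b h
      have h1 : 2 * f a + 1 = 2 * f b + 1 := h
      exact finj (by omega)
    · intro a b a' b' _ _ h
      have h1 : Nat.pair (Nat.pair a b) (wit a b) = Nat.pair (Nat.pair a' b') (wit a' b') := by
        simp only [N] at h
        omega
      exact Nat.pair_eq_pair.1 (Nat.pair_eq_pair.1 h1).1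
    · intro a b h
      have h1 : 2 * a = 2 * f b + 1 := h
      omega
    · intro a b c _ h
      have h1 : 2 * a = 2 * N b c + 1 := h
      omega
    · intro a b c hbc h
      have h1 : 2 * f a + 1 = 2 * N b c + 1 := h
      have h2 : f a = N b c := by omega
      exact hN b c hbc (h2 ▸ (fran (f a)).2 ⟨a, rfl⟩)
    · intro x
      rcases Nat.mod_two_eq_zero_or_one x with hx | hx
      · exact Or.inl ⟨x / 2, by omega⟩
      · right
        by_cases hi : Inv (x / 2)
        · left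
          obtain ⟨n, hn⟩ := (fran _).1 hi
          exact ⟨n, by omega⟩
        · right
          have h1 : ¬ (x / 2 % 2 = 1) := fun h => hi (Or.inl h)
          have h2 : V (x / 2 / 2).unpair.1.unpair (x / 2 / 2).unpair.2 :=
            by_contra fun h => hi (Or.inr h)
          obtain ⟨h3, h4⟩ := hval (x / 2 / 2).unpair.1.unpair.1 (x / 2 / 2).unpair.1.unpair.2 _ h2
          refine ⟨_, _, h3, ?_⟩
          simp only [N]
          rw [← h4, Nat.pair_unpair, Nat.pair_unpair]
          omega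
  · have h1 : REIn A fun v : Fin 1 → ℕ => v 0 % 2 = 1 :=
      REIn.of_re (RE.eq (cmod (capp 1 0) 2) (by fun_prop))
    refine h1.of_eq fun v => ?_
    unfold U3; beta_reduce
    constructor
    · rintro h ⟨a, ha⟩
      omega
    · intro h
      by_contra h2
      exact h ⟨v 0 / 2, by omega⟩
  · have c0 := capp 2 0
    have c1 := capp 2 1
    have h1 : REIn A fun v : Fin 2 → ℕ => v 0 % 2 = 0 ∨ v 1 % 2 = 1 ∨ ¬ (f (v 1 / 2) = v 0 / 2) := by
      refine REIn.or (REIn.of_re (RE.eq (cmod c0 2) (by fun_prop)))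
        (REIn.or (REIn.of_re (RE.eq (cmod c1 2) (by fun_prop))) ?_)
      have e0 := cdiv c0 2
      have e1 := cdiv c1 2
      exact fdec.2.comp (f := fun v : Fin 2 → ℕ => (v 1 / 2, v 0 / 2)) (e1.pair e0)
    refine h1.of_eq fun v => ?_
    unfold K3; beta_reduce
    constructor
    · rintro h ⟨a, ha, hb⟩
      rcases h with h | h | h
      · omega
      · omega
      · apply h
        rw [hb, Nat.mul_div_cancel_left _ (by norm_num : 0 < 2)]
        omega
    · intro h
      by_contra h2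
      push Not at h2
      obtain ⟨h3, h4, h5⟩ := h2
      exact h ⟨v 1 / 2, by omega, by omega⟩
  · have c0 := capp 3 0
    have c1 := capp 3 1
    have c2 := capp 3 2
    have d0 := cdiv c0 4
    have d1 := cdiv c1 2
    have d2 := cdiv c2 2
    have h1 : REIn A fun v : Fin 3 → ℕ => ¬ (v 0 % 4 = 1) ∨ ¬ (v 1 % 2 = 0) ∨ ¬ (v 2 % 2 = 0) ∨
        ¬ ((v 0 / 4).unpair.1 = Nat.pair (v 1 / 2) (v 2 / 2)) ∨
        ¬ V (v 1 / 2, v 2 / 2) (v 0 / 4).unpair.2 := by
      refine REIn.or (REIn.of_re (RE.ne (cmod c0 4) (by fun_prop)))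
        (REIn.or (REIn.of_re (RE.ne (cmod c1 2) (by fun_prop)))
        (REIn.or (REIn.of_re (RE.ne (cmod c2 2) (by fun_prop)))
        (REIn.or (REIn.of_re (RE.ne ?_ ?_)) ?_)))
      · fun_prop
      · fun_prop
      · exact hV.comp (f := fun v : Fin 3 → ℕ => ((v 1 / 2, v 2 / 2), (v 0 / 4).unpair.2))
          (by fun_prop)
    refine h1.of_eq fun v => ?_
    unfold N3; beta_reduce
    constructor
    · rintro h ⟨a, b, hab, h0, ha, hb⟩
      simp only [N] at h0
      have e0 : v 0 / 4 = Nat.pair (Nat.pair a b) (wit a b) := by omega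
      have e1 : v 1 / 2 = a := by omega
      have e2 : v 2 / 2 = b := by omega
      rw [e0, e1, e2, Nat.unpair_pair] at h
      rcases h with h | h | h | h | h
      · omega
      · omega
      · omega
      · exact h rfl
      · exact h (hwit a b hab)
    · intro h
      by_contra h2
      simp only [not_or, not_not] at h2
      obtain ⟨h3, h4, h5, h6, h7⟩ := h2
      obtain ⟨h8, h9⟩ := hval _ _ _ h7
      refine h ⟨v 1 / 2, v 2 / 2, h8, ?_, by omega, by omega⟩
      simp only [N]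
      rw [← h9, ← h6, Nat.pair_unpair]
      omega

end main

end Pool.Agent.Q53.AR
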